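import Pool.Agent.SZG.StmtsF

namespace Pool.Agent.SZG.H49

open scoped BigOperators
open Pool.Agent.THS Pool.Agent.SZG

/-- geometric sum of a root of unity -/
theorem fl2_geom (l : ℕ) (hl : Odd l) (p p' : Fin l) :
    ∑ k : Fin l, Complex.exp (8 * Real.pi * Complex.I * ((k.val : ℂ) * ((p.val : ℂ) - (p'.val : ℂ)))
      / (l : ℂ)) = if p = p' then (l : ℂ) else 0 := by
  have hl0 : (l : ℂ) ≠ 0 := by
    have : l ≠ 0 := by
      rintro rfl
      exact absurd hl (by decide)
    exact_mod_cast this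
  split_ifs with h
  · subst h
    simp
  · set ζ : ℂ := Complex.exp (8 * Real.pi * Complex.I * ((p.val : ℂ) - (p'.val : ℂ)) / (l : ℂ)) with hζ
    have e1 : ∑ k : Fin l, Complex.exp (8 * Real.pi * Complex.I
        * ((k.val : ℂ) * ((p.val : ℂ) - (p'.val : ℂ))) / (l : ℂ)) = ∑ k ∈ Finset.range l, ζ ^ k := by
      rw [← Fin.sum_univ_eq_sum_range]
      refine Finset.sum_congr rfl fun k _ => ?_
      rw [hζ, ← Complex.exp_nat_mul]
      congr 1
      ring
    rw [e1]
    have hz1 : ζ ≠ 1 := by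
      rw [hζ, Ne, Complex.exp_eq_one_iff]
      rintro ⟨n, hn⟩
      have hpi : (Real.pi : ℂ) ≠ 0 := by exact_mod_cast Real.pi_ne_zero
      have h1 : (4 : ℂ) * ((p.val : ℂ) - (p'.val : ℂ)) = n * l := by
        have h2 : (2 * Real.pi * Complex.I : ℂ) * (4 * ((p.val : ℂ) - (p'.val : ℂ)))
            = (2 * Real.pi * Complex.I : ℂ) * (n * l) := by
          field_simp at hn
          linear_combination (Real.pi * Complex.I : ℂ) * hn
        exact mul_left_cancel₀ (by simp [hpi, Complex.I_ne_zero]) h2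
      have h3 : (4 : ℤ) * ((p.val : ℤ) - (p'.val : ℤ)) = n * l := by exact_mod_cast h1
      have h4 : (l : ℤ) ∣ 4 * ((p.val : ℤ) - (p'.val : ℤ)) := ⟨n, by rw [h3]; ring⟩
      have hco : IsCoprime (l : ℤ) 4 := by
        have : Nat.Coprime l 4 := by
          have h5 : Nat.Coprime l 2 := Nat.Coprime.symm (Nat.coprime_two_left.mpr hl)
          have := Nat.Coprime.pow_right 2 h5
          simpa using this
        have := Nat.isCoprime_iff_coprime.mpr this
        exact_mod_cast this
      have h6 : (l : ℤ) ∣ ((p.val : ℤ) - (p'.val : ℤ)) := hco.dvd_of_dvd_mul_left h4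
      have h7 : ((p.val : ℤ) - (p'.val : ℤ)) = 0 := by
        apply Int.eq_zero_of_abs_lt_dvd h6
        have := p.isLt
        have := p'.isLt
        rw [abs_lt]
        constructor <;> omega
      apply h
      ext
      omega
    have hzl : ζ ^ l = 1 := by
      rw [hζ, ← Complex.exp_nat_mul, Complex.exp_eq_one_iff]
      refine ⟨4 * ((p.val : ℤ) - (p'.val : ℤ)), ?_⟩
      push_cast
      field_simp
      ring
    have := geom_sum_eq hz1 l
    rw [this, hzl]
    simp

/-- Fourier inversion on the box -/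
theorem fl2_inv (g l : ℕ) (hl : Odd l) (κ : (Fin g → Fin l) → ℂ)
    (h : ∀ n : Fin g → ℤ, ∑ p : Fin g → Fin l, κ p * Complex.exp (8 * Real.pi * Complex.I
      * (∑ i, (n i : ℂ) * ((p i).val : ℂ)) / (l : ℂ)) = 0) : ∀ p, κ p = 0 := by
  intro p'
  have hl0 : (l : ℂ) ≠ 0 := by
    have : l ≠ 0 := by
      rintro rfl
      exact absurd hl (by decide)
    exact_mod_cast this
  have key : ∑ n : Fin g → Fin l, Complex.exp (-(8 * Real.pi * Complex.I
      * (∑ i, ((n i).val : ℂ) * ((p' i).val : ℂ)) / (l : ℂ)))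
      * ∑ p : Fin g → Fin l, κ p * Complex.exp (8 * Real.pi * Complex.I
      * (∑ i, ((n i).val : ℂ) * ((p i).val : ℂ)) / (l : ℂ)) = 0 := by
    apply Finset.sum_eq_zero
    intro n _
    have := h (fun i => ((n i).val : ℤ))
    push_cast at this
    rw [this, mul_zero]
  have e1 : ∑ n : Fin g → Fin l, Complex.exp (-(8 * Real.pi * Complex.I
      * (∑ i, ((n i).val : ℂ) * ((p' i).val : ℂ)) / (l : ℂ)))
      * ∑ p : Fin g → Fin l, κ p * Complex.exp (8 * Real.pi * Complex.I
      * (∑ i, ((n i).val : ℂ) * ((p i).val : ℂ)) / (l : ℂ))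
      = ∑ p : Fin g → Fin l, κ p * ∏ i, ∑ k : Fin l, Complex.exp (8 * Real.pi * Complex.I
        * ((k.val : ℂ) * (((p i).val : ℂ) - ((p' i).val : ℂ))) / (l : ℂ)) := by
    simp_rw [Finset.mul_sum]
    rw [Finset.sum_comm]
    refine Finset.sum_congr rfl fun p _ => ?_
    rw [Finset.prod_univ_sum, Finset.mul_sum]
    rw [Fintype.piFinset_univ]
    refine Finset.sum_congr rfl fun n _ => ?_
    rw [← Complex.exp_sum, mul_left_comm, ← Complex.exp_add]
    congr 2
    rw [← Finset.sum_div, ← Finset.mul_sum, ← Finset.mul_sum, ← Finset.mul_sum]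
    have e9 : ∑ i, ((n i).val : ℂ) * (((p i).val : ℂ) - ((p' i).val : ℂ))
        = ∑ i, ((n i).val : ℂ) * ((p i).val : ℂ) - ∑ i, ((n i).val : ℂ) * ((p' i).val : ℂ) := by
      rw [← Finset.sum_sub_distrib]
      exact Finset.sum_congr rfl fun i _ => by ring
    rw [e9]
    ring
  rw [e1] at key
  have e2 : ∀ p : Fin g → Fin l, ∏ i, ∑ k : Fin l, Complex.exp (8 * Real.pi * Complex.I
        * ((k.val : ℂ) * (((p i).val : ℂ) - ((p' i).val : ℂ))) / (l : ℂ))
        = if p = p' then (l : ℂ) ^ g else 0 := by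
    intro p
    simp_rw [fl2_geom l hl]
    split_ifs with h
    · subst h
      simp
    · have : ∃ i, p i ≠ p' i := by
        by_contra hc
        push Not at hc
        exact h (funext hc)
      obtain ⟨i, hi⟩ := this
      exact Finset.prod_eq_zero (Finset.mem_univ i) (if_neg hi)
  simp_rw [e2] at key
  simp only [mul_ite, mul_zero, Finset.sum_ite_eq', Finset.mem_univ, if_true] at key
  rcases mul_eq_zero.mp key with h1 | h1
  · exact h1
  · exact absurd h1 (pow_ne_zero _ hl0)

theorem fl2_siegel {g : ℕ} {τ : Matrix (Fin g) (Fin g) ℂ} (hτ : Siegel τ) :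
    Siegel ((2 : ℂ) • τ) := by
  refine ⟨?_, ?_⟩
  · rw [Matrix.transpose_smul, hτ.1]
  · have e : ((2 : ℂ) • τ).map Complex.im = (2 : ℝ) • (τ.map Complex.im) := by
      ext i j
      simp [Matrix.map_apply, Matrix.smul_apply]
    rw [e]
    exact hτ.2.smul (by norm_num)

theorem fl2 (hB : TbdStatement) (hG : GrdStatement) : Fl2Stmt := by
  intro g τ hτ l hl a q κ hκ
  have hl0 : (l : ℂ) ≠ 0 := by
    have : l ≠ 0 := by
      rintro rfl
      exact absurd hl (by decide)
    exact_mod_cast this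
  have hτ2 := fl2_siegel hτ
  set s : Fin g → ℝ := hv a with hs
  -- points
  set zp : (Fin g → Fin l) → (Fin g → ℂ) := fun p i => 4 * ((p i).val : ℂ) / (l : ℂ) with hzp
  -- step 1: vanishing of the combination
  have h1 : ∀ y : Fin g → ℝ, ∑ p : Fin g → Fin l,
      κ p * ths ((2 : ℂ) • τ) s (fun i => (y i : ℂ) + zp p i) = 0 := by
    intro y
    set w : Fin g → ℂ := fun r => ((y r : ℂ) / 2 - 2 * (∑ j, τ r j * (((q j).val : ℤ) : ℂ)) / (l : ℂ))
      / (2 * (l : ℂ)) with hw
    have h2 := hκ w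
    have h3 : ∀ p : Fin g → Fin l, FF τ l (fun i => ((p i).val : ℤ)) (fun i => ((q i).val : ℤ)) a w
        = Complex.exp (16 * Real.pi * Complex.I * ∑ i, ((((q i).val : ℤ) : ℂ)) * w i)
          * ths ((2 : ℂ) • τ) s (fun i => (y i : ℂ) + zp p i) := by
      intro p
      unfold FF Thc
      congr 2
      funext r
      rw [hw, hzp]
      push_cast
      field_simp
      ring
    simp_rw [h3] at h2
    have h4 : Complex.exp (16 * Real.pi * Complex.I * ∑ i, ((((q i).val : ℤ) : ℂ)) * w i)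
        * ∑ p : Fin g → Fin l, κ p * ths ((2 : ℂ) • τ) s (fun i => (y i : ℂ) + zp p i) = 0 := by
      rw [Finset.mul_sum, ← h2]
      refine Finset.sum_congr rfl fun p _ => ?_
      ring
    exact (mul_eq_zero.mp h4).resolve_left (Complex.exp_ne_zero _)
  -- coefficients
  set C : (Fin g → ℤ) → ℂ := fun n => ∑ p : Fin g → Fin l, κ p * tht ((2 : ℂ) • τ) s (zp p) n with hC
  -- bound
  have hsum : ∀ z : Fin g → ℂ, Summable (fun n => ‖tht ((2 : ℂ) • τ) s z n‖) := by
    intro z
    obtain ⟨u, hu, hub⟩ := hB g _ hτ2 (∑ i, |s i| + ∑ i, ‖z i‖)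
    refine Summable.of_nonneg_of_le (fun n => norm_nonneg _) (fun n => hub s z ?_ ?_ n) hu
    · intro i
      have h5 : |s i| ≤ ∑ i, |s i| := Finset.single_le_sum (f := fun i => |s i|)
        (fun i _ => abs_nonneg _) (Finset.mem_univ i)
      have h6 : 0 ≤ ∑ i, ‖z i‖ := Finset.sum_nonneg fun i _ => norm_nonneg _
      linarith
    · intro i
      have h5 : ‖z i‖ ≤ ∑ i, ‖z i‖ := Finset.single_le_sum (f := fun i => ‖z i‖)
        (fun i _ => norm_nonneg _) (Finset.mem_univ i)
      have h6 : 0 ≤ ∑ i, |s i| := Finset.sum_nonneg fun i _ => abs_nonneg _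
      linarith
  have hCs : Summable (fun n => ‖C n‖) := by
    refine Summable.of_nonneg_of_le (fun n => norm_nonneg _)
      (fun n => norm_sum_le _ _) ?_
    refine summable_sum fun p _ => ?_
    simp_rw [norm_mul]
    exact (hsum (zp p)).mul_left _
  -- translation by real y
  have htr : ∀ (y : Fin g → ℝ) (z : Fin g → ℂ) (n : Fin g → ℤ),
      tht ((2 : ℂ) • τ) s (fun i => (y i : ℂ) + z i) n
        = Complex.exp (2 * Real.pi * Complex.I * ∑ i, (s i : ℂ) * (y i : ℂ))
          * (tht ((2 : ℂ) • τ) s z n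
            * Complex.exp (2 * Real.pi * Complex.I * ∑ i, (n i : ℂ) * (y i : ℂ))) := by
    intro y z n
    unfold tht
    rw [← Complex.exp_add, ← Complex.exp_add]
    congr 1
    have : ∑ i, ((n i : ℂ) + (s i : ℂ)) * ((y i : ℂ) + z i)
        = ∑ i, ((n i : ℂ) + (s i : ℂ)) * z i + ∑ i, (s i : ℂ) * (y i : ℂ)
          + ∑ i, (n i : ℂ) * (y i : ℂ) := by
      rw [← Finset.sum_add_distrib, ← Finset.sum_add_distrib]
      refine Finset.sum_congr rfl fun i _ => ?_
      ring
    rw [this]
    ring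
  -- the trigonometric series vanishes
  have h2 : ∀ y : Fin g → ℝ, ∑' n, C n * Complex.exp (2 * Real.pi * Complex.I
      * ∑ i, (n i : ℂ) * (y i : ℂ)) = 0 := by
    intro y
    have h3 := h1 y
    unfold ths at h3
    simp_rw [htr y] at h3
    simp_rw [tsum_mul_left] at h3
    have hsm : ∀ p, Summable (fun n => tht ((2 : ℂ) • τ) s (zp p) n
        * Complex.exp (2 * Real.pi * Complex.I * ∑ i, (n i : ℂ) * (y i : ℂ))) := by
      intro p
      refine Summable.of_norm ?_
      have : ∀ n : Fin g → ℤ, ‖tht ((2 : ℂ) • τ) s (zp p) n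
        * Complex.exp (2 * Real.pi * Complex.I * ∑ i, (n i : ℂ) * (y i : ℂ))‖
          = ‖tht ((2 : ℂ) • τ) s (zp p) n‖ := by
        intro n
        rw [norm_mul]
        have : (2 * Real.pi * Complex.I * ∑ i, (n i : ℂ) * (y i : ℂ) : ℂ)
            = ((2 * Real.pi * ∑ i, (n i : ℝ) * y i : ℝ) : ℂ) * Complex.I := by
          push_cast
          ring
        rw [this, Complex.norm_exp_ofReal_mul_I, mul_one]
      simp_rw [this]
      exact hsum (zp p)
    have h4 : ∑' n, C n * Complex.exp (2 * Real.pi * Complex.I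
      * ∑ i, (n i : ℂ) * (y i : ℂ)) = ∑ p : Fin g → Fin l, κ p * ∑' n, tht ((2 : ℂ) • τ) s (zp p) n
        * Complex.exp (2 * Real.pi * Complex.I * ∑ i, (n i : ℂ) * (y i : ℂ)) := by
      simp_rw [← tsum_mul_left]
      rw [← Summable.tsum_finsetSum (fun p _ => (hsm p).mul_left (κ p))]
      refine tsum_congr fun n => ?_
      rw [hC, Finset.sum_mul]
      refine Finset.sum_congr rfl fun p _ => ?_
      ring
    rw [h4]
    have h5 : Complex.exp (2 * Real.pi * Complex.I * ∑ i, (s i : ℂ) * (y i : ℂ))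
        * ∑ p : Fin g → Fin l, κ p * ∑' n, tht ((2 : ℂ) • τ) s (zp p) n
        * Complex.exp (2 * Real.pi * Complex.I * ∑ i, (n i : ℂ) * (y i : ℂ)) = 0 := by
      rw [Finset.mul_sum, ← h3]
      refine Finset.sum_congr rfl fun p _ => ?_
      ring
    exact (mul_eq_zero.mp h5).resolve_left (Complex.exp_ne_zero _)
  -- all coefficients vanish
  have h3 : ∀ m, C m = 0 := by
    intro m
    by_contra hm
    have hsc : Summable (fun n => ‖C (n + m) / C m‖) := by
      simp_rw [norm_div]
      exact ((Equiv.addRight m).summable_iff.mpr hCs).div_const _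
    obtain ⟨x, hx⟩ := hG g (fun n => C (n + m) / C m) hsc (by simp [hm])
    apply hx
    have h4 := h2 x
    rw [← (Equiv.addRight m).tsum_eq] at h4
    have h5 : ∀ n : Fin g → ℤ, C (n + m) / C m * Complex.exp (2 * Real.pi * Complex.I
        * ∑ i, (n i : ℂ) * (x i : ℂ))
        = (Complex.exp (-(2 * Real.pi * Complex.I * ∑ i, (m i : ℂ) * (x i : ℂ))) / C m)
          * (C ((Equiv.addRight m) n) * Complex.exp (2 * Real.pi * Complex.I
            * ∑ i, (((Equiv.addRight m) n i : ℤ) : ℂ) * (x i : ℂ))) := by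
      intro n
      have e6 : Complex.exp (2 * Real.pi * Complex.I * ∑ i, (n i : ℂ) * (x i : ℂ))
          = Complex.exp (-(2 * Real.pi * Complex.I * ∑ i, (m i : ℂ) * (x i : ℂ)))
            * Complex.exp (2 * Real.pi * Complex.I
            * ∑ i, (((Equiv.addRight m) n i : ℤ) : ℂ) * (x i : ℂ)) := by
        rw [← Complex.exp_add]
        congr 1
        have : ∑ i, (((Equiv.addRight m) n i : ℤ) : ℂ) * (x i : ℂ)
            = ∑ i, (n i : ℂ) * (x i : ℂ) + ∑ i, (m i : ℂ) * (x i : ℂ) := by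
          rw [← Finset.sum_add_distrib]
          refine Finset.sum_congr rfl fun i _ => ?_
          simp only [Equiv.coe_addRight, Pi.add_apply]
          push_cast
          ring
        rw [this]
        ring
      rw [e6]
      simp only [Equiv.coe_addRight]
      ring
    simp_rw [h5]
    rw [tsum_mul_left, h4, mul_zero]
  -- conclusion
  set κ' : (Fin g → Fin l) → ℂ := fun p => κ p * Complex.exp (2 * Real.pi * Complex.I
    * ∑ i, (s i : ℂ) * zp p i) with hκ'
  have h4 : ∀ n : Fin g → ℤ, ∑ p : Fin g → Fin l, κ' p * Complex.exp (8 * Real.pi * Complex.I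
      * (∑ i, (n i : ℂ) * ((p i).val : ℂ)) / (l : ℂ)) = 0 := by
    intro n
    have h5 := h3 n
    rw [hC] at h5
    have h6 : Complex.exp (Real.pi * Complex.I *
      (∑ i, ∑ j, ((n i : ℂ) + (s i : ℂ)) * ((2 : ℂ) • τ) i j * ((n j : ℂ) + (s j : ℂ))))
        * ∑ p : Fin g → Fin l, κ' p * Complex.exp (8 * Real.pi * Complex.I
      * (∑ i, (n i : ℂ) * ((p i).val : ℂ)) / (l : ℂ)) = 0 := by
      rw [Finset.mul_sum, ← h5]
      refine Finset.sum_congr rfl fun p _ => ?_
      rw [hκ']
      unfold tht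
      rw [Complex.exp_add]
      have e7 : Complex.exp (2 * Real.pi * Complex.I * ∑ i, ((n i : ℂ) + (s i : ℂ)) * zp p i)
          = Complex.exp (2 * Real.pi * Complex.I * ∑ i, (s i : ℂ) * zp p i)
            * Complex.exp (8 * Real.pi * Complex.I
      * (∑ i, (n i : ℂ) * ((p i).val : ℂ)) / (l : ℂ)) := by
        rw [← Complex.exp_add]
        congr 1
        have e8 : ∑ i, ((n i : ℂ) + (s i : ℂ)) * zp p i
            = ∑ i, (s i : ℂ) * zp p i + 4 * (∑ i, (n i : ℂ) * ((p i).val : ℂ)) / (l : ℂ) := by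
          rw [mul_div_assoc, Finset.sum_div, Finset.mul_sum, ← Finset.sum_add_distrib]
          refine Finset.sum_congr rfl fun i _ => ?_
          rw [hzp]
          ring
        rw [e8]
        ring
      rw [e7]
      ring
    exact (mul_eq_zero.mp h6).resolve_left (Complex.exp_ne_zero _)
  intro p
  have h5 := fl2_inv g l hl κ' h4 p
  rw [hκ'] at h5
  exact (mul_eq_zero.mp h5).resolve_right (Complex.exp_ne_zero _)

end Pool.Agent.SZG.H49
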