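import Pool.Agent.SZG.StmtsF

namespace Pool.Agent.SZG.H49

open scoped BigOperators
open Pool.Agent.THS Pool.Agent.SZG

theorem fqp (hT : TouStatement) : FqpStmt := by
  intro g τ hτ l p q a w P Q hl
  obtain ⟨-, -, -, hper, -, -⟩ := hT g τ hτ
  have hl0 : (l : ℂ) ≠ 0 := by
    have : l ≠ 0 := by omega
    exact_mod_cast this
  set x : Fin g → ℂ := fun r => 2 * (l : ℂ) * w r + 2 * ((p r : ℂ) + ∑ j, τ r j * (q j : ℂ)) / (l : ℂ)
    with hx
  have key := hper a x (fun i => 2 * (l : ℤ) * P i) (fun i => 2 * (l : ℤ) * Q i)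
  have harg : (fun r => 2 * (l : ℂ) * (w r + ((P r : ℂ) + ∑ j, τ r j * (Q j : ℂ)))
      + 2 * ((p r : ℂ) + ∑ j, τ r j * (q j : ℂ)) / (l : ℂ))
      = (fun i => x i + (((2 * (l : ℤ) * P i : ℤ) : ℂ)
          + ∑ j, τ i j * ((2 * (l : ℤ) * Q j : ℤ) : ℂ))) := by
    funext r
    have : ∑ j, τ r j * ((2 * (l : ℤ) * Q j : ℤ) : ℂ) = 2 * (l : ℂ) * ∑ j, τ r j * (Q j : ℂ) := by
      rw [Finset.mul_sum]
      refine Finset.sum_congr rfl fun j _ => ?_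
      push_cast
      ring
    rw [this, hx]
    push_cast
    ring
  have hsym : ∑ i, (q i : ℂ) * ∑ j, τ i j * (Q j : ℂ) = ∑ i, (Q i : ℂ) * ∑ j, τ i j * (q j : ℂ) := by
    simp_rw [Finset.mul_sum]
    rw [Finset.sum_comm]
    refine Finset.sum_congr rfl fun i _ => Finset.sum_congr rfl fun j _ => ?_
    have : τ j i = τ i j := by
      have h1 := congrFun (congrFun hτ.1 i) j
      simpa [Matrix.transpose_apply] using h1
    rw [this]
    ring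
  have hFF : FF τ l p q a (fun i => w i + ((P i : ℂ) + ∑ j, τ i j * (Q j : ℂ)))
      = Complex.exp (16 * Real.pi * Complex.I * ∑ i, (q i : ℂ) * (w i + ((P i : ℂ)
          + ∑ j, τ i j * (Q j : ℂ)))) *
        Thc τ a (fun r => 2 * (l : ℂ) * (w r + ((P r : ℂ) + ∑ j, τ r j * (Q j : ℂ)))
      + 2 * ((p r : ℂ) + ∑ j, τ r j * (q j : ℂ)) / (l : ℂ)) := rfl
  have hFF2 : FF τ l p q a w = Complex.exp (16 * Real.pi * Complex.I * ∑ i, (q i : ℂ) * w i)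
      * Thc τ a x := rfl
  rw [hFF, hFF2, harg, key, ← mul_assoc, ← mul_assoc, ← Complex.exp_add, ← Complex.exp_add]
  congr 1
  rw [Complex.exp_eq_exp_iff_exists_int]
  refine ⟨8 * (∑ i, (q i * P i) - ∑ i, (Q i * p i)), ?_⟩
  have e1 : ∑ i, (q i : ℂ) * (w i + ((P i : ℂ) + ∑ j, τ i j * (Q j : ℂ)))
      = ∑ i, (q i : ℂ) * w i + ∑ i, (q i : ℂ) * (P i : ℂ)
        + ∑ i, (q i : ℂ) * ∑ j, τ i j * (Q j : ℂ) := by
    rw [← Finset.sum_add_distrib, ← Finset.sum_add_distrib]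
    refine Finset.sum_congr rfl fun i _ => ?_
    ring
  have e2 : ∑ i, ∑ j, ((2 * (l : ℤ) * Q i : ℤ) : ℂ) * τ i j * ((2 * (l : ℤ) * Q j : ℤ) : ℂ)
      = 4 * (l : ℂ) ^ 2 * ∑ i, ∑ j, (Q i : ℂ) * τ i j * (Q j : ℂ) := by
    rw [Finset.mul_sum]
    refine Finset.sum_congr rfl fun i _ => ?_
    rw [Finset.mul_sum]
    refine Finset.sum_congr rfl fun j _ => ?_
    push_cast
    ring
  have e3 : ∑ i, ((2 * (l : ℤ) * Q i : ℤ) : ℂ) * x i
      = 4 * (l : ℂ) ^ 2 * ∑ i, (Q i : ℂ) * w i + 4 * ∑ i, (Q i : ℂ) * (p i : ℂ)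
        + 4 * ∑ i, (Q i : ℂ) * ∑ j, τ i j * (q j : ℂ) := by
    rw [Finset.mul_sum, Finset.mul_sum, Finset.mul_sum, ← Finset.sum_add_distrib,
      ← Finset.sum_add_distrib]
    refine Finset.sum_congr rfl fun i _ => ?_
    rw [hx]
    push_cast
    field_simp
    ring
  rw [e1, e2, e3, hsym]
  push_cast
  ring

end Pool.Agent.SZG.H49
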