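import Pool.Agent.SZG.StmtsD
import Pool.Agent.Helper27_THS.SHM

/-!
# SZG, row INV: division by `1 + μ`
-/

set_option autoImplicit false

namespace Pool.Agent.SZG.H49

open scoped BigOperators
open Pool.Agent.THS (Short nv qv)
open Pool.Agent.SZG

theorem inv : InvStmt := by
  intro c L
  refine ⟨∑ i ∈ Finset.range L, (c + 1) ^ i, ?_⟩
  intro K _ v θ f hv hθ0 hθ1 hf hS
  obtain ⟨_, hadd, hsm, hmul, _⟩ := Pool.Agent.THS.H27.shm K v hv
  have hε : 0 ≤ θ ^ L := pow_nonneg hθ0.le L
  have hε1 : θ ^ L ≤ 1 := pow_le_one₀ hθ0.le hθ1.le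
  have hone : Short v 1 (θ ^ L) (fun _ _ : ℤ => (1 : K)) := by
    refine ⟨fun _ _ => 1, fun _ _ => 1, fun _ _ => by rw [map_one], fun _ _ => by rw [map_one],
      fun _ _ => ?_⟩
    simpa using hε
  -- `g = 1 - f`
  have hg0 : ∀ k s, v (1 - f k s) ≤ θ := by
    intro k s
    rw [← neg_sub, v.map_neg]
    exact hf k s
  have hg1 : ∀ k s, v (1 - f k s) ≤ 1 := fun k s => (hg0 k s).trans hθ1.le
  have hg : Short v (c + 1) (θ ^ L) (fun k s => 1 - f k s) := by
    have h1 := hsm c (θ ^ L) (-1) f hε (by rw [v.map_neg, map_one]) hS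
    have h2 := hadd c 1 (θ ^ L) _ _ h1 hone
    have e : (fun i j => -1 * f i j + (1 : K)) = fun k s => 1 - f k s := by
      funext i j
      ring
    rw [e] at h2
    exact h2
  have hpow : ∀ i : ℕ, Short v ((c + 1) ^ i) (θ ^ L) (fun k s => (1 - f k s) ^ i) := by
    intro i
    induction i with
    | zero =>
      simp only [pow_zero]
      exact hone
    | succ i ih =>
      have h1 := hmul ((c + 1) ^ i) (c + 1) (θ ^ L) 1 _ _ hε hε1 le_rfl
        (fun k s => by rw [map_pow]; exact pow_le_one₀ (v.nonneg _) (hg1 k s)) hg1 ih hg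
      rw [mul_one] at h1
      simp only [pow_succ]
      exact h1
  have hsum : ∀ M : ℕ, Short v (∑ i ∈ Finset.range M, (c + 1) ^ i) (θ ^ L)
      (fun k s => ∑ i ∈ Finset.range M, (1 - f k s) ^ i) := by
    intro M
    induction M with
    | zero =>
      simp only [Finset.range_zero, Finset.sum_empty]
      refine ⟨fun _ _ => 0, fun _ _ => 0, fun s => s.elim0, fun s => s.elim0, fun _ _ => ?_⟩
      simpa using hε
    | succ M ih =>
      simp only [Finset.sum_range_succ]
      exact hadd _ _ _ _ _ ih (hpow M)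
  obtain ⟨A, B, hA, hB, hAB⟩ := hsum L
  refine ⟨A, B, hA, hB, ?_⟩
  intro k s
  have hf0 : f k s ≠ 0 := by
    intro h0
    have h1 := hf k s
    rw [h0, zero_sub, v.map_neg, map_one] at h1
    linarith
  have hvf : v (f k s) = 1 := by
    apply le_antisymm
    · have h1 := hv (f k s - 1) 1
      rw [sub_add_cancel, map_one] at h1
      exact h1.trans (max_le ((hf k s).trans hθ1.le) le_rfl)
    · by_contra hlt
      push Not at hlt
      have h1 := hv (f k s) (1 - f k s)
      rw [add_sub_cancel, map_one] at h1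
      have h2 : max (v (f k s)) (v (1 - f k s)) < 1 := max_lt hlt ((hg0 k s).trans_lt hθ1)
      linarith
  have hgeo : (f k s)⁻¹ - ∑ i ∈ Finset.range L, (1 - f k s) ^ i =
      (1 - f k s) ^ L * (f k s)⁻¹ := by
    have h1 := mul_neg_geom_sum (1 - f k s) L
    have h2 : 1 - (1 - f k s) = f k s := by ring
    rw [h2] at h1
    field_simp
    rw [h1]
    ring
  have h1 : v ((f k s)⁻¹ - ∑ i ∈ Finset.range L, (1 - f k s) ^ i) ≤ θ ^ L := by
    rw [hgeo, map_mul, map_inv₀, hvf, inv_one, mul_one, map_pow]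
    exact pow_le_pow_left₀ (v.nonneg _) (hg0 k s) L
  have h2 := hv ((f k s)⁻¹ - ∑ i ∈ Finset.range L, (1 - f k s) ^ i)
    (∑ i ∈ Finset.range L, (1 - f k s) ^ i - ∑ j, A j k * B j s)
  rw [sub_add_sub_cancel] at h2
  exact h2.trans (max_le h1 (hAB k s))

end Pool.Agent.SZG.H49
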